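import Mathlib
import Pool.Agent.U483.KM.Main

/-!
# The monodromy-weight conjecture and the Grothendieck ring of varieties

Let `k` be a field of characteristic zero with an embedding into a `p`-adic field `K` (for example `k = K`)
whose residue field has `q` elements. `H` stands for the pieces `gr i w X = gr^W_w H^i_c(X_K̄, Ω)` with a
lift of the Frobenius and the monodromy operator; the structures `Coh` (of the library), `Motives` and
`IsMultiplicative` list the known properties which are used: exact sequences, weights, the Künneth formula,
transfer, and that the pieces are realizations of objects of the semisimple category of pure motives for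
absolute Hodge cycles. `C` is the class of the smooth projective schemes. `H.MW Y` says that all `gr i w Y` are
mw pure of weight `w`.

* For a smooth projective `X` the groups `H^i(X)` are mw pure if and only if the class of `X` in `K_0(Var_k)` is in
  the subgroup generated by the classes of the schemes `Y` with `H.MW Y` (they may be singular and open). So mw
  purity only depends on the class of `X` in `K_0(Var_k)`.
* It follows from the theorem of Rapoport and Zink (`D = 2`) that all `H^i(X)` are mw pure for every smooth
  projective `X` whose class is in the subring generated by the classes of the schemes of dimension at most two,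
  of the closed subschemes of affine spaces given by equations with few terms, of normal images of such schemes
  under finite morphisms, and of all schemes `B` for which mw purity is known.

Idea of the proof of the first part. If `h^w(X)` is not good, choose a direct factor `S` of it which is not good
and with the least dimension of `End S`. Then there are no morphisms from `S` to good objects, as the image would
be a good direct factor of `S` with a smaller complement. `Y ↦ ∑ (-1)^i dim Hom(S, gr^W_w h^i_c(Y))` is an
additive function on `K_0(Var_k)`; it vanishes for all `Y` with `H.MW Y`, but not for `X`.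
-/

set_option autoImplicit false

open CategoryTheory AlgebraicGeometry Pool.Agent.Y116.UV Pool.Agent.U583.MW Pool.Agent.U483.KM

namespace Pool.Agent.Results.MP_855f4c_ag.GrothendieckRing

universe u v w x

theorem result (k : Type) [Field k] [CharZero k] (Ω : Type u) [Field Ω] [CharZero Ω] [IsAlgClosed Ω]
    (q : ℕ) (hq : 1 < q) (H : Coh.{u, v} k Ω q) (𝓜 : Type w) [Category.{x} 𝓜] [Abelian 𝓜]
    [Linear ℚ 𝓜] (M : Motives H 𝓜) (C : Sch k → Prop) (hC : IsProjClass H C) :
    -- mw purity in terms of the class in `K_0(Var_k)`
    (∀ X : Var k, C X.1 → ((∀ i : ℤ, (H.gr i i X.1).Pure q i) ↔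
      cls X ∈ AddSubgroup.closure {c | ∃ Y : Var k, H.MW Y.1 ∧ c = cls Y})) ∧
    (∀ X X' : Var k, C X.1 → C X'.1 → cls X = cls X' →
      ((∀ i : ℤ, (H.gr i i X.1).Pure q i) ↔ ∀ i : ℤ, (H.gr i i X'.1).Pure q i)) ∧
    -- varieties built from varieties of dimension at most `D` (`D = 2`: Rapoport and Zink)
    (IsMultiplicative H → ∀ (B : Sch k → Prop), (∀ Y, FT True Y → B Y → H.MW Y) → ∀ D : ℕ,
      H.MWPr C D → (∀ Y, Built k B D Y → H.MW Y) ∧
        ∀ X : Var k, C X.1 →
          cls X ∈ AddSubgroup.closure {c | ∃ Y : Var k, Built k B D Y.1 ∧ c = cls Y} →
          ∀ i : ℤ, (H.gr i i X.1).Pure q i) := by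
  have hp : PerfectField k := inferInstance
  refine ⟨fun X hX => pure_iff_mem M hq hC hX, fun X X' hX hX' h => ?_,
    fun hH B hB D hD => ?_⟩
  · rw [pure_iff_mem M hq hC hX, pure_iff_mem M hq hC hX', h]
  · have hD' : H.MWDim D := (dim_iff H hq D).2 ((pr_iff H hq hC D).1 hD)
    have key : ∀ Y, Built k B D Y → H.MW Y := fun Y hY => (mw_built hq hH hB hD' hY).2
    refine ⟨key, fun X hX h => ?_⟩
    refine (pure_iff_mem M hq hC hX).2 (AddSubgroup.closure_mono ?_ h)
    rintro c ⟨Y, hY, rfl⟩
    exact ⟨Y, key Y.1 hY, rfl⟩

end Pool.Agent.Results.MP_855f4c_ag.GrothendieckRing
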