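import Pool.Agent.U227.MotMain
import Pool.Agent.U227.MotMW

/-!
# Group actions and the monodromy-weight conjecture

Let `C` be a `ℚ`-linear category with direct sums and split idempotents, for example the category of Chow
motives over a finite extension `K'` of the local field `K`, and let `R i` be additive functors from `C` to
vector spaces with a Frobenius `Φ` and a monodromy operator `N` as natural endomorphisms, for example
the cohomology of degree `i` over an algebraic closure of `K` with coefficients in an algebraic closure
of `ℚ_ℓ` (`Φ` a lift of the geometric Frobenius, `N` the logarithm of the action of an open subgroup of the
inertia group). A finite extension of `K` does not change the question whether the cohomology is mw pure.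

Let a finite group `G` act on an object `M`, for example on the motive of a smooth projective variety `X` over
`K` such that `G` acts on `X` over `K'`. The part of `M` fixed by a subgroup `H` is the motive of `X/H`.

Let `P` be the property to be mw pure in the degrees `i` in a set `I`. We show:

* `P` holds for `X` if and only if every irreducible rational representation `ρ` of `G` which occurs in
  `End(M)` modulo the endomorphisms factoring through objects with `P` has a nonzero vector fixed by a
  subgroup `H` such that `P` holds for `X/H`;
* `P` holds for `X/H` if it holds for all `X/D_j` and every such `ρ` with a nonzero vector fixed by `H` has a
  nonzero vector fixed by some `D_j`;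
* if `c` is an involution, then `P` holds for `X` if and only if it does for `X/c` and `X/[G,c]`; if `c`
  is contained in a nonabelian simple subgroup, if and only if for `X/c`; if a subgroup is partitioned into
  subgroups `D_j`, at least two, if and only if for all `X/D_j`; if `G` is commutative, if and only if for
  all `X/K`, `G/K` cyclic;
* if `P` does not hold for `X`, but for `X/H` for all subgroups `H` of prime order, then an irreducible
  rational representation occurs in which the elements different from one fix only `0` (so `G` is
  a Frobenius complement), the commutative subgroups and the subgroups of order `p q` are cyclic, and `G`
  has at most one involution.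

So the monodromy-weight conjecture holds for `X` if for example `(ℤ/p)²`, a dihedral group, a Frobenius
group or `PSL_2(F_q)` acts on `X` such that the quotients by the members of a partition of the
group are dominated by products of curves and surfaces, by complete intersections in toric
varieties (Scholze) or by abelian varieties, all of these cases together.

The stability of `P` under direct sums and direct summands is proved (`U227.MotMW`). The representation
theoretic criteria (involutions, simple groups, partitions, groups of order `p q`) are from the library
(`X252`, `X328`), where they are applied to the Künneth components.
-/

open CategoryTheory CategoryTheory.Limits Pool.Agent.X252.SCT Pool.Agent.U227.Grp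
  Pool.Agent.U227.Mot Pool.Agent.U227.MW

universe v u w

namespace Pool.Agent.Results.MP_855f4c_ag.GroupActions

/-- **Group actions and the monodromy-weight conjecture.** -/
theorem result {C : Type u} [Category.{v} C] [Preadditive C] [Linear ℚ C] [IsIdempotentComplete C]
    [HasZeroObject C] [HasBinaryBiproducts C] {Ω : Type w} [Field Ω]
    (R : ℤ → LocalRealization C Ω) (I : Set ℤ) {G : Type} [Group G] [Finite G] {M : C}
    (a : G →* End M) :
    (MWPureIn R I M ↔ Covered (MWPureIn R I) a) ∧
    (∀ (H : Subgroup G) (ι : Type) (D : ι → Subgroup G), Dominates (MWPureIn R I) a H D →
      (∀ j, OnQuotient (MWPureIn R I) a (D j)) → OnQuotient (MWPureIn R I) a H) ∧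
    QuotientLaws (MWPureIn R I M) (OnQuotient (MWPureIn R I) a) ∧
    (¬ MWPureIn R I M → AtPrimes (OnQuotient (MWPureIn R I) a) →
      FreeOccurs (MWPureIn R I) a ∧ CyclicSubgroups G) :=
  main (isStable R I) a

end Pool.Agent.Results.MP_855f4c_ag.GroupActions
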