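import Pool.Agent.U865.LS.Step

/-!
# MP_855f4c_ag: mw purity for strata with Lefschetz, divisorial and Gysin classes, in all dimensions
-/

set_option autoImplicit false

open Module

universe u v

namespace Pool.Agent.Results.MP_855f4c_ag.LefschetzStrata

open Pool.Agent.Y143 Pool.Agent.X302.MW Pool.Agent.U865.LS

/-- Let `X` be a projective strictly semistable scheme of relative dimension `n` over a henselian
discrete valuation ring with residue field with `q` elements, given by the `ℓ`-adic cohomology of the
strata `Y^(m)` of its special fibre, with the groups `A` of the classes of components and divisors,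
and of its geometric generic fibre. Let `k ≤ 2 n` and `κ = min (k, 2 n - k)`.

1. In all dimensions, without further hypotheses, the graded pieces `gr_b` of the monodromy
   filtration of `H^k` with `|b| ≥ κ - 1` are pure of weight `k + b`.
2. `H^k` is mw pure if, for all `a ≥ 0` and `w ≥ 2` with `a + 1 + w = κ, κ - 2, κ - 4, ...`, the space
   `H^2(Y^(a+1))` is spanned by classes of divisors (if `w = 2`) and
   `dim H^w(Y^(a+1)) ≤ dim H^(w-2)(Y^(a+1))`, or `w = 3` and `WeilThird` holds (if `w ≥ 3`). For
   example all `H^k` are mw pure for `n = 4` if on the strata of dimension three and four `H^2` is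
   spanned by classes of divisors and `H^3` comes from curves.
3. If `(w, χ)` is controlled for `H^w(Y^(a+1)) → H^w(Y^(a+2))` for all `a` and `w` with `a + 1 ≥ i`,
   `w ≥ 2` and `a + 1 + w = κ` and for all characters `χ`, then the graded pieces `gr_b` of the
   monodromy filtration of `H^k` with `|b| ≥ i` are pure of weight `k + b`. If `i ≤ 1` then `H^k` is
   mw pure.
4. If `k + 2 ≤ n` and `H^k` is mw pure, and if for all `a` and `w` with `a + 1 + w = k` the
   restrictions to `Y^(a+2)` of the classes in `H^(w+2)(Y^(a+1))` are restrictions of classes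
   `L x + τ z` with `x` in `H^w(Y^(a+1))` and `z` in `H^w(Y^(a+2))`, or `w + 2` is controlled for all
   characters, then `H^(k+2)` is mw pure. -/
theorem result {Ω : Type u} [Field Ω] [CharZero Ω] [IsAlgClosed Ω] {Γ : Type} {n q : ℕ}
    (hq : 1 < q) (X : Degeneration.{u, v} Ω Γ n q) (A : DivisorClasses X.toSpecialFibre) :
    (∀ k ≤ 2 * n, PureFrom q k (X.actV k X.frob) (X.N k) (min k (2 * n - k) - 1)) ∧
    (∀ k ≤ 2 * n, SmallUpTo A (min k (2 * n - k)) →
      IsMWPure q k (X.actV k X.frob) (X.N k)) ∧
    (∀ k ≤ 2 * n, ∀ i : ℕ,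
      (∀ a w : ℕ, i ≤ a + 1 → 2 ≤ w → a + 1 + w = min k (2 * n - k) → ∀ χ, Controlled A a w χ) →
      PureFrom q k (X.actV k X.frob) (X.N k) i ∧
        (i ≤ 1 → IsMWPure q k (X.actV k X.frob) (X.N k))) ∧
    (∀ k, k + 2 ≤ n → IsMWPure q k (X.actV k X.frob) (X.N k) →
      (∀ a w : ℕ, a + 1 + w = k →
        Steps X.toSpecialFibre a w ∨ ∀ χ, Controlled A a (w + 2) χ) →
      IsMWPure q (k + 2 : ℕ) (X.actV (k + 2) X.frob) (X.N (k + 2))) :=
  ⟨fun k hk => pureFrom_outer X A k hk, fun k hk h => mwPure_of_small X A k hk h,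
    fun k hk i h => ⟨pureFrom X A k hk i h, fun _ => (pureFrom X A k hk 0 fun a w _ h2 h3 =>
      h a w (by omega) h2 h3).isMWPure⟩,
    fun k hk h hs => mwPure_add_two X hq A k hk h hs⟩

end Pool.Agent.Results.MP_855f4c_ag.LefschetzStrata
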