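import Pool.Agent.U548.DG.Main

/-!
# The monodromy-weight conjecture and Chow groups

Let `k` be a local field (a finite extension of `ℚ_p`) with residue field with `q` elements, and `W` the
cohomology `H(X) = H^*(X_{\bar k}, \bar ℚ_ℓ)` of the smooth projective varieties `X` over `k`
(geometrically irreducible; closed points are given the class of degree `1`), with the action `F` of an element of the Weil group which induces the
geometric Frobenius and the monodromy operator `N`. The monodromy-weight conjecture for `X` (`MW q X`)
says that all `H^j(X)` are mw pure of weight `j`. It is known if `dim X ≤ 2` (Rapoport-Zink, de Jong),
and for curves, abelian varieties, complete intersections, ...; it is open already for threefolds.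

**Theorem.** Suppose that the conjecture holds in dimension at most `D` (known for `D = 2`) and for
the members of a set `𝒞` of varieties. Let `X` be a variety of dimension `n` whose diagonal has a
decomposition (`HasDecomposition W 𝒞 X D c`): the identity of `H(X)` is a sum of operators given by
cycles supported on `S × T` with `dim S + dim T ≤ n + D` or `dim T ≤ n - c`, and of operators which
factor through the cohomology of members of `𝒞` (by algebraic correspondences). Then `H^j(X)` is mw
pure for all `j ≤ D + 2c` and all `j ≥ 2n - D - 2c`. In particular the conjecture holds for `X` if
`n ≤ D + 2c`.

By the theorem of Bloch and Srinivas (and its generalization by Laterveer) such a decomposition exists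
(after a finite extension of `k`, which does not matter) if for all `i < c` the Chow group `CH_i(X)`
(rational coefficients, over an algebraically closed field of infinite transcendence degree) is
generated by the images of the Chow groups of members of `𝒞` under correspondences and by cycles on
subvarieties of dimension at most `i + D`. So, with `D = 2`:

* (`c = 1`) the conjecture holds for all varieties of dimension at most `4` whose group of zero-cycles
  is supported on a surface, for example for all rationally connected fourfolds, and in general for
  rationally connected varieties in all degrees `j ≤ 4` and `j ≥ 2n - 4`;
* (`c = 1`) for varieties of dimension at most `4` the conjecture only depends on the zero-cycles: it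
  holds for `X` if `CH_0(X)` is generated by the images of the `CH_0(Y)` for varieties `Y` (of any
  dimension) for which it holds; in particular it is a birational invariant;
* (`c = 2`) it holds for varieties of dimension at most `6` for which `CH_0` is supported in dimension
  `2` and `CH_1` in dimension `3`, and so on;
* (no supported cycles, `c` arbitrary) it holds for `X` if the derived category of `X` is equivalent
  to that of a variety for which it holds, or has a semiorthogonal decomposition with pieces equivalent
  to derived categories of such varieties (the degrees of the correspondences are arbitrary).

The proof: for `j ≤ D` the group `H^j(Y)` of an arbitrary variety `Y` is a direct factor of `H^j(S)`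
for a `j`-dimensional complete intersection `S` of hyperplane sections (hard Lefschetz theorem), so it
is mw pure. The operator of a cycle supported on `S × T` factors through `H^j(S)` and through
`H^(j - 2 (n - dim T))(T)`, and one of these two groups is of degree at most `D`, or of degree at
least `2 dim - D`.
-/

set_option autoImplicit false

open CategoryTheory AlgebraicGeometry

universe u v

namespace Pool.Agent.Results.MP_855f4c_ag.SmallChowGroups

open Pool.Agent.H914 Pool.Agent.U548.DG

/-- **The monodromy-weight conjecture for varieties with small Chow groups.** -/
theorem result {k : Type u} [Field k] {𝒱 : VarClass k} {ops : CycleOps 𝒱}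
    (W : WeilCohomology.{u, v} ops) [IsAlgClosed W.K] (A : LocalAction W) (q : ℕ)
    (hA : A.Known q) (D c : ℕ) (𝒞 : Set 𝒱.Obj) (hD : ∀ Y : 𝒱.Obj, Y.dim ≤ D → A.MW q Y)
    (h𝒞 : ∀ Y ∈ 𝒞, A.MW q Y) (X : 𝒱.Obj) (hX : HasDecomposition W 𝒞 X D c) :
    (∀ j : ℕ, j ≤ D + 2 * c ∨ 2 * X.dim ≤ j + D + 2 * c → A.PureIn q X j) ∧
      (X.dim ≤ D + 2 * c → A.MW q X) :=
  ⟨fun _ hj => main hA hD h𝒞 hX hj, main_all hA hD h𝒞 hX⟩

end Pool.Agent.Results.MP_855f4c_ag.SmallChowGroups
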